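import Pool.Agent.Helper72.WC.Defs

/-!
# Project WC, module C: counting residues
-/

set_option autoImplicit false

namespace Pool.Agent.Helper72.WC

open Finset

variable {n : ℕ}

theorem h10_mem_fib {L : ℕ} {D : Finset (Fin n)} {r : ZMod L} {v : Fin n} :
    v ∈ fib L D r ↔ v ∈ D ∧ rs L v = r := Finset.mem_filter

theorem h10_card_fib {L : ℕ} [NeZero L] (r : ZMod L) :
    (fib L (univ : Finset (Fin n)) r).card = n / L + if r.val % L < n % L then 1 else 0 := by
  have hL : 0 < L := Nat.pos_of_ne_zero (NeZero.ne L)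
  rw [← Nat.count_modEq_card n hL r.val, Nat.count_eq_card_filter_range,
    ← Finset.card_map Fin.valEmbedding]
  congr 1
  ext m
  rw [Finset.mem_map, Finset.mem_filter, Finset.mem_range]
  constructor
  · rintro ⟨v, hv, rfl⟩
    have hv' := (h10_mem_fib.1 hv).2
    unfold rs at hv'
    refine ⟨v.2, ?_⟩
    rw [← ZMod.natCast_eq_natCast_iff, ZMod.natCast_zmod_val]
    exact hv'
  · rintro ⟨hm, hv⟩
    refine ⟨⟨m, hm⟩, h10_mem_fib.2 ⟨Finset.mem_univ _, ?_⟩, rfl⟩
    rw [← ZMod.natCast_eq_natCast_iff, ZMod.natCast_zmod_val] at hv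
    exact hv

theorem card_fib_univ {L : ℕ} [NeZero L] (r : ZMod L) :
    n / L ≤ (fib L (univ : Finset (Fin n)) r).card ∧
      (fib L (univ : Finset (Fin n)) r).card ≤ n / L + 1 := by
  rw [h10_card_fib]
  constructor
  · exact Nat.le_add_right _ _
  · split_ifs <;> omega

theorem card_rel {L : ℕ} [NeZero L] (x : Fin n) :
    (univ.filter fun y => relA L x y ∨ relB L x y).card ≤ 4 * (n / L + 1) := by
  have h : (univ.filter fun y => relA L x y ∨ relB L x y) ⊆
      (fib L univ (rs L x + 1) ∪ fib L univ (rs L x - 1)) ∪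
        (fib L univ (rs L x + 2) ∪ fib L univ (rs L x - 2)) := by
    intro y hy
    have hy' := (Finset.mem_filter.1 hy).2
    unfold relA relB at hy'
    rw [Finset.mem_union, Finset.mem_union, Finset.mem_union]
    rcases hy' with (h | h) | (h | h)
    · exact Or.inl (Or.inl (h10_mem_fib.2 ⟨Finset.mem_univ _, h⟩))
    · exact Or.inl (Or.inr (h10_mem_fib.2 ⟨Finset.mem_univ _, by rw [h]; ring⟩))
    · exact Or.inr (Or.inl (h10_mem_fib.2 ⟨Finset.mem_univ _, h⟩))
    · exact Or.inr (Or.inr (h10_mem_fib.2 ⟨Finset.mem_univ _, by rw [h]; ring⟩))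
  have h1 := (card_fib_univ (n := n) (rs L x + 1)).2
  have h2 := (card_fib_univ (n := n) (rs L x - 1)).2
  have h3 := (card_fib_univ (n := n) (rs L x + 2)).2
  have h4 := (card_fib_univ (n := n) (rs L x - 2)).2
  refine (Finset.card_le_card h).trans ((Finset.card_union_le _ _).trans ?_)
  have h5 := Finset.card_union_le (fib L (univ : Finset (Fin n)) (rs L x + 1))
    (fib L univ (rs L x - 1))
  have h6 := Finset.card_union_le (fib L (univ : Finset (Fin n)) (rs L x + 2))
    (fib L univ (rs L x - 2))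
  omega

end Pool.Agent.Helper72.WC
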